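import Pool.Agent.H87.IS.Stmts

set_option autoImplicit false

namespace Pool.Agent.H87.IS

open MvPolynomial

namespace STTAux

variable {k : Type} [Field k] {σ : Type}

theorem ord_zero (f : MvPolynomial σ k) : Ord 0 f := fun _ h => absurd h (Nat.not_lt_zero _)

theorem ord_one {f : MvPolynomial σ k} (h : coeff 0 f = 0) : Ord 1 f := by
  intro m hm
  have : m.degree = 0 := by omega
  rw [Finsupp.degree_eq_zero_iff] at this
  rw [this, h]

theorem Ord.mono {M M' : ℕ} {f : MvPolynomial σ k} (h : Ord M' f) (hM : M ≤ M') : Ord M f :=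
  fun m hm => h m (by omega)

theorem Ord.add {M : ℕ} {f g : MvPolynomial σ k} (hf : Ord M f) (hg : Ord M g) :
    Ord M (f + g) := by
  intro m hm
  rw [coeff_add, hf m hm, hg m hm, add_zero]

theorem Ord.sub {M : ℕ} {f g : MvPolynomial σ k} (hf : Ord M f) (hg : Ord M g) :
    Ord M (f - g) := by
  intro m hm
  rw [coeff_sub, hf m hm, hg m hm, sub_zero]

theorem Ord.neg {M : ℕ} {f : MvPolynomial σ k} (hf : Ord M f) : Ord M (-f) := by
  intro m hm
  rw [coeff_neg, hf m hm, neg_zero]

theorem Ord.zero {M : ℕ} : Ord M (0 : MvPolynomial σ k) := by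
  intro m hm
  rw [coeff_zero]

theorem Ord.sum {ι : Type*} {M : ℕ} (s : Finset ι) {f : ι → MvPolynomial σ k}
    (hf : ∀ i ∈ s, Ord M (f i)) : Ord M (∑ i ∈ s, f i) := by
  intro m hm
  rw [coeff_sum]
  exact Finset.sum_eq_zero fun i hi => hf i hi m hm

theorem Ord.mul {a b : ℕ} {f g : MvPolynomial σ k} (hf : Ord a f) (hg : Ord b g) :
    Ord (a + b) (f * g) := by
  classical
  intro m hm
  rw [coeff_mul]
  refine Finset.sum_eq_zero fun x hx => ?_
  rw [Finset.HasAntidiagonal.mem_antidiagonal] at hx
  have h1 : x.1.degree + x.2.degree = m.degree := by rw [← hx, map_add]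
  rcases lt_or_ge x.1.degree a with h | h
  · rw [hf _ h, zero_mul]
  · rw [hg _ (by omega), mul_zero]

theorem Ord.mul_left {b : ℕ} (f : MvPolynomial σ k) {g : MvPolynomial σ k} (hg : Ord b g) :
    Ord b (f * g) := by
  have := Ord.mul (ord_zero f) hg
  rwa [zero_add] at this

theorem Ord.mul_right {b : ℕ} {f : MvPolynomial σ k} (g : MvPolynomial σ k) (hf : Ord b f) :
    Ord b (f * g) := by
  rw [mul_comm]; exact Ord.mul_left g hf

theorem Ord.pow {f : MvPolynomial σ k} (hf : Ord 1 f) (n : ℕ) : Ord n (f ^ n) := by
  induction n with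
  | zero => exact ord_zero _
  | succ n ih => rw [pow_succ]; exact Ord.mul ih hf

theorem ord_monomial (m : σ →₀ ℕ) (a : k) : Ord m.degree (monomial m a) := by
  classical
  intro m' hm'
  rw [coeff_monomial, if_neg]
  rintro rfl
  exact lt_irrefl _ hm'

/-- `aeval θ (X^m)` has order at least the degree of `m` -/
theorem ord_aeval_monomial {θ : σ → MvPolynomial σ k} (hθ : ∀ i, Ord 1 (θ i)) (m : σ →₀ ℕ)
    (a : k) : Ord m.degree (aeval θ (monomial m a)) := by
  rw [aeval_monomial]
  refine Ord.mul_left _ ?_
  rw [Finsupp.prod, Finsupp.degree_apply]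
  induction m.support using Finset.cons_induction with
  | empty => exact ord_zero _
  | cons i s hi ih =>
      rw [Finset.sum_cons, Finset.prod_cons]
      exact Ord.mul (Ord.pow (hθ i) _) ih

theorem ord_aeval {θ : σ → MvPolynomial σ k} (hθ : ∀ i, Ord 1 (θ i)) {M : ℕ}
    {f : MvPolynomial σ k} (hf : Ord M f) : Ord M (aeval θ f) := by
  rw [f.as_sum, map_sum]
  refine Ord.sum _ fun m hm => ?_
  refine Ord.mono (ord_aeval_monomial hθ m _) ?_
  by_contra h
  exact (mem_support_iff.mp hm) (hf m (by omega))

/-- telescoping -/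
theorem tele {l : σ → MvPolynomial σ k} (hl : ∀ i, Ord 2 (l i - X i)) (m : σ →₀ ℕ) :
    Ord (m.degree + 1) (aeval l (monomial m (1 : k)) - monomial m 1) := by
  have h1 : ∀ i, Ord 1 (l i) := by
    intro i
    have : l i = (l i - X i) + X i := by ring
    rw [this]
    refine Ord.add (Ord.mono (hl i) (by norm_num)) ?_
    have := ord_monomial (k := k) (Finsupp.single i 1) 1
    rwa [Finsupp.degree_single] at this
  induction m using Finsupp.induction_linear with
  | zero =>
      have : (monomial (0 : σ →₀ ℕ) (1 : k)) = 1 := rfl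
      rw [this, map_one, sub_self]; exact Ord.zero
  | add f g hf hg =>
      have e : (monomial (f + g) (1 : k)) = monomial f 1 * monomial g 1 := by
        rw [monomial_mul, one_mul]
      rw [e, map_mul, map_add]
      have : aeval l (monomial f (1 : k)) * aeval l (monomial g (1 : k)) -
          monomial f 1 * monomial g 1 =
          (aeval l (monomial f (1 : k)) - monomial f 1) * aeval l (monomial g (1 : k)) +
            monomial f 1 * (aeval l (monomial g (1 : k)) - monomial g 1) := by ring
      rw [this]
      refine Ord.add (Ord.mono (Ord.mul hf (ord_aeval_monomial h1 g 1)) (by omega))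
        (Ord.mono (Ord.mul (ord_monomial f 1) hg) (by omega))
  | single i n =>
      rw [Finsupp.degree_single]
      induction n with
      | zero =>
          have : (monomial (Finsupp.single i 0) (1 : k)) = 1 := by
            rw [Finsupp.single_zero]; rfl
          rw [this, map_one, sub_self]; exact Ord.zero
      | succ n ih =>
          have e : (monomial (Finsupp.single i (n + 1)) (1 : k)) =
              monomial (Finsupp.single i n) 1 * X i := by
            rw [X, monomial_mul, one_mul, ← Finsupp.single_add]
          rw [e, map_mul, aeval_X]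
          have : aeval l (monomial (Finsupp.single i n) (1 : k)) * l i -
              monomial (Finsupp.single i n) 1 * X i =
              (aeval l (monomial (Finsupp.single i n) (1 : k)) -
                monomial (Finsupp.single i n) 1) * l i +
                monomial (Finsupp.single i n) 1 * (l i - X i) := by ring
          rw [this]
          have hm := ord_monomial (k := k) (Finsupp.single i n) 1
          rw [Finsupp.degree_single] at hm
          refine Ord.add (Ord.mono (Ord.mul ih (h1 i)) (by omega))
            (Ord.mono (Ord.mul hm (hl i)) (by omega))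

theorem deg_lt_two [DecidableEq σ] (m : σ →₀ ℕ) (h : m.degree < 2) :
    m = 0 ∨ ∃ i, m = Finsupp.single i 1 := by
  rcases eq_or_ne m 0 with h0 | h0
  · exact Or.inl h0
  · right
    obtain ⟨i, hi⟩ : ∃ i, m i ≠ 0 := by
      by_contra hh
      push Not at hh
      exact h0 (Finsupp.ext hh)
    refine ⟨i, ?_⟩
    have hle : Finsupp.single i 1 ≤ m := by
      rw [Finsupp.single_le_iff]; omega
    have hs : Finsupp.single i 1 + (m - Finsupp.single i 1) = m := add_tsub_cancel_of_le hle
    have hd : (Finsupp.single i 1 : σ →₀ ℕ).degree + (m - Finsupp.single i 1).degree = m.degree := by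
      rw [← map_add, hs]
    rw [Finsupp.degree_single] at hd
    have : (m - Finsupp.single i 1).degree = 0 := by omega
    rw [Finsupp.degree_eq_zero_iff] at this
    rw [← hs, this, add_zero]

theorem exists_unit {D : MvPolynomial σ k} (hD : coeff 0 D ≠ 0) (K : ℕ) :
    ∃ u : MvPolynomial σ k, Ord K (u * D - 1) := by
  classical
  induction K with
  | zero => exact ⟨0, ord_zero _⟩
  | succ K ih =>
      obtain ⟨u, hu⟩ := ih
      refine ⟨u - C (coeff 0 D)⁻¹ * (u * D - 1), ?_⟩
      have : (u - C (coeff 0 D)⁻¹ * (u * D - 1)) * D - 1 =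
          (u * D - 1) * (C (coeff 0 D)⁻¹ * (C (coeff 0 D) - D)) := by
        have h1 : C (coeff 0 D)⁻¹ * C (coeff 0 D) = (1 : MvPolynomial σ k) := by
          rw [← C_mul, inv_mul_cancel₀ hD, C_1]
        linear_combination (-(u * D - 1)) * h1
      rw [this]
      refine Ord.mul hu (Ord.mul_left _ (ord_one ?_))
      rw [coeff_sub, coeff_C, if_pos rfl, sub_self]

theorem chain [Fintype σ] [DecidableEq σ] (θ : σ → MvPolynomial σ k) (l : σ)
    (G : MvPolynomial σ k) :
    pderiv l (aeval θ G) = ∑ i, aeval θ (pderiv i G) * pderiv l (θ i) := by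
  induction G using MvPolynomial.induction_on with
  | C a =>
      simp
  | add p q hp hq =>
      simp only [map_add, hp, hq, add_mul, Finset.sum_add_distrib]
  | mul_X p i hp =>
      rw [map_mul, aeval_X, Derivation.leibniz, hp]
      simp only [Derivation.leibniz, smul_eq_mul, pderiv_X, map_add, map_mul, aeval_X, add_mul,
        Finset.sum_add_distrib]
      have h1 : ∑ x, aeval θ p *
          aeval θ ((Pi.single x (1 : MvPolynomial σ k) : σ → MvPolynomial σ k) i) *
          pderiv l (θ x) = aeval θ p * pderiv l (θ i) := by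
        rw [Finset.sum_eq_single i]
        · rw [Pi.single_eq_same, map_one, mul_one]
        · intro j _ hj
          rw [Pi.single_eq_of_ne (Ne.symm hj), map_zero, mul_zero, zero_mul]
        · exact fun h => absurd (Finset.mem_univ i) h
      rw [h1, Finset.mul_sum]
      congr 1
      refine Finset.sum_congr rfl fun j _ => ?_
      ring

theorem star_ord [Fintype σ] {N : ℕ} {G : MvPolynomial σ k} (hG : Star N G)
    {P : MvPolynomial σ k} (hP : Ord N P) :
    ∃ c : σ → MvPolynomial σ k, Ord (N + 1) (P - ∑ i, c i * pderiv i G) := by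
  classical
  have key : ∀ s : Finset (σ →₀ ℕ), (∀ m ∈ s, N ≤ m.degree) →
      ∃ c : σ → MvPolynomial σ k,
        Ord (N + 1) ((∑ m ∈ s, monomial m (coeff m P)) - ∑ i, c i * pderiv i G) := by
    intro s
    induction s using Finset.cons_induction with
    | empty =>
        intro _
        refine ⟨0, ?_⟩
        simp only [Finset.sum_empty, Pi.zero_apply, zero_mul, Finset.sum_const_zero, sub_zero]
        exact Ord.zero
    | cons m s hm ih =>
        intro h
        obtain ⟨c, hc⟩ := ih fun m' hm' => h m' (Finset.mem_cons.2 (Or.inr hm'))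
        have hN := h m (Finset.mem_cons_self m s)
        rcases Nat.lt_or_ge N m.degree with h1 | h1
        · refine ⟨c, ?_⟩
          rw [Finset.sum_cons, add_sub_assoc]
          exact Ord.add (Ord.mono (ord_monomial m _) h1) hc
        · obtain ⟨c', hc'⟩ := hG m (le_antisymm h1 hN)
          refine ⟨fun i => C (coeff m P) * c' i + c i, ?_⟩
          have : (∑ m ∈ Finset.cons m s hm, monomial m (coeff m P)) -
              ∑ i, (C (coeff m P) * c' i + c i) * pderiv i G =
              C (coeff m P) * (monomial m 1 - ∑ i, c' i * pderiv i G) +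
                ((∑ m ∈ s, monomial m (coeff m P)) - ∑ i, c i * pderiv i G) := by
            rw [Finset.sum_cons]
            simp only [add_mul, Finset.sum_add_distrib, mul_sub, Finset.mul_sum, mul_assoc]
            rw [C_mul_monomial, mul_one]
            ring
          rw [this]
          exact Ord.add (Ord.mul_left _ hc') hc
  obtain ⟨c, hc⟩ := key P.support fun m hm => by
    by_contra h
    exact (mem_support_iff.mp hm) (hP m (by omega))
  refine ⟨c, ?_⟩
  rwa [← P.as_sum] at hc

end STTAux

open STTAux in
theorem STT : STTStmt := by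
  intro k _ σ _ _ G θ N h0 hdet hG
  classical
  have hθ : ∀ i, Ord 1 (θ i) := fun i => ord_one (h0 i)
  -- the inverse of the linear part
  have hB : (jac θ)⁻¹ * jac θ = 1 := Matrix.nonsing_inv_mul _ (isUnit_iff_ne_zero.mpr hdet)
  have hl : ∀ j, Ord 2 ((∑ i, C ((jac θ)⁻¹ j i) * θ i) - X j) := by
    intro j m hm
    rcases deg_lt_two m hm with rfl | ⟨l, rfl⟩
    · rw [coeff_sub, coeff_sum]
      simp only [coeff_C_mul, h0, mul_zero, Finset.sum_const_zero, zero_sub, neg_eq_zero]
      rw [coeff_X, if_neg]
      intro h
      have := congrArg (fun f => f j) h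
      simp at this
    · rw [coeff_sub, coeff_sum]
      simp only [coeff_C_mul]
      have := congrFun (congrFun hB j) l
      rw [Matrix.mul_apply] at this
      have e : ∀ i, coeff (Finsupp.single l 1) (θ i) = jac θ i l := fun i => rfl
      simp only [e]
      rw [this, coeff_X, Matrix.one_apply]
      by_cases hjl : j = l
      · rw [if_pos hjl, if_pos (by rw [hjl]), sub_self]
      · rw [if_neg hjl, if_neg, sub_self]
        intro h
        exact hjl (Finsupp.single_left_injective one_ne_zero h)
  -- the matrix of the derivatives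
  let J : Matrix σ σ (MvPolynomial σ k) := Matrix.of fun i l => pderiv l (θ i)
  have hJ0 : coeff 0 J.det ≠ 0 := by
    have h1 : constantCoeff J.det = (jac θ).det := by
      rw [RingHom.map_det]
      congr 1
      ext i l
      simp only [RingHom.mapMatrix_apply, Matrix.map_apply, J, Matrix.of_apply, jac]
      rw [constantCoeff_eq, coeff_pderiv]
      simp
    rw [← constantCoeff_eq, h1]
    exact hdet
  obtain ⟨u, hu⟩ := exists_unit hJ0 (N + 1)
  have hchain : ∀ i, J.det * aeval θ (pderiv i G) =
      ∑ l, pderiv l (aeval θ G) * J.adjugate l i := by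
    intro i
    have h1 : (fun l => pderiv l (aeval θ G)) =
        Matrix.vecMul (fun i => aeval θ (pderiv i G)) J := by
      funext l
      rw [chain, Matrix.vecMul, dotProduct]
      rfl
    have h2 : Matrix.vecMul (fun l => pderiv l (aeval θ G)) J.adjugate =
        J.det • (fun i => aeval θ (pderiv i G)) := by
      rw [h1, Matrix.vecMul_vecMul, Matrix.mul_adjugate, Matrix.vecMul_smul, Matrix.vecMul_one]
    have h3 := congrFun h2 i
    rw [Pi.smul_apply, smul_eq_mul, Matrix.vecMul, dotProduct] at h3
    exact h3.symm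
  intro m hm
  -- `X^m = aeval θ P_m` up to higher order
  let l : σ → MvPolynomial σ k := fun j => ∑ i, C ((jac θ)⁻¹ j i) * X i
  have hl1 : ∀ j, Ord 1 (l j) := by
    intro j
    refine Ord.sum _ fun i _ => Ord.mul_left _ ?_
    have := ord_monomial (k := k) (Finsupp.single i 1) 1
    rwa [Finsupp.degree_single] at this
  have hP : Ord N (aeval l (monomial m (1 : k))) := by
    rw [← hm]; exact ord_aeval_monomial hl1 m 1
  obtain ⟨c, hc⟩ := star_ord hG hP
  have hP2 : aeval θ (aeval l (monomial m (1 : k))) =
      aeval (fun j => ∑ i, C ((jac θ)⁻¹ j i) * θ i) (monomial m (1 : k)) := by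
    rw [← AlgHom.comp_apply]
    congr 1
    refine MvPolynomial.algHom_ext fun j => ?_
    simp only [AlgHom.comp_apply, aeval_X, l, map_sum, map_mul, aeval_C]
    rfl
  have hX : Ord (N + 1) (aeval θ (aeval l (monomial m (1 : k))) - monomial m 1) := by
    rw [hP2, ← hm]
    exact tele hl m
  have hS := ord_aeval hθ hc
  rw [map_sub, map_sum] at hS
  refine ⟨fun l => ∑ i, aeval θ (c i) * u * J.adjugate l i, ?_⟩
  have hsum : ∑ l, (∑ i, aeval θ (c i) * u * J.adjugate l i) * pderiv l (aeval θ G) =
      ∑ i, aeval θ (c i) * aeval θ (pderiv i G) * (u * J.det) := by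
    simp only [Finset.sum_mul]
    rw [Finset.sum_comm]
    refine Finset.sum_congr rfl fun i _ => ?_
    have := hchain i
    calc ∑ l, aeval θ (c i) * u * J.adjugate l i * pderiv l (aeval θ G)
        = aeval θ (c i) * u * ∑ l, pderiv l (aeval θ G) * J.adjugate l i := by
          rw [Finset.mul_sum]
          exact Finset.sum_congr rfl fun l _ => by ring
      _ = aeval θ (c i) * aeval θ (pderiv i G) * (u * J.det) := by
          rw [← this]; ring
  have hfin : monomial m 1 -
      ∑ l, (∑ i, aeval θ (c i) * u * J.adjugate l i) * pderiv l (aeval θ G) =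
      ((aeval θ (aeval l (monomial m (1 : k))) - ∑ i, aeval θ (c i * pderiv i G)) -
        (aeval θ (aeval l (monomial m (1 : k))) - monomial m 1)) -
        ∑ i, aeval θ (c i) * aeval θ (pderiv i G) * (u * J.det - 1) := by
    rw [hsum]
    simp only [map_mul, mul_sub, Finset.sum_sub_distrib, mul_one]
    ring
  rw [hfin]
  refine Ord.sub (Ord.sub hS hX) (Ord.sum _ fun i _ => Ord.mul_left _ hu)

end Pool.Agent.H87.IS
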